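import Pool.Agent.Lib.MP_ba5def_co.Orth

/-!
A power saving in the exponent: `f_d(n) ≤ exp (C_n d^(13/16))`.
-/

set_option autoImplicit false

namespace Pool.Agent.Results.MP_ba5def_co.PowerSaving

open Pool.Agent.Lib.MP_ba5def_co in
/-- From a family of points indexed by `Fin n` whose mutual distances are distinct to a set. -/
lemma set_of_family {E : Type} [NormedAddCommGroup E] [InnerProductSpace ℝ E]
    [FiniteDimensional ℝ E] (n : ℕ) (hn : 3 ≤ n) (S : Finset E) (w : Fin n → E)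
    (hw : ∀ i, w i ∈ S)
    (hr : ∀ i j i' j', i < j → i' < j' → dist (w i) (w j) = dist (w i') (w j') →
      i = i' ∧ j = j') :
    ∃ T : Finset E, T ⊆ S ∧ T.card = n ∧
      ∀ a ∈ T, ∀ b ∈ T, ∀ c ∈ T, ∀ e ∈ T, a ≠ b → c ≠ e →
        dist a b = dist c e → (a = c ∧ b = e) ∨ (a = e ∧ b = c) := by
  classical
  have hinj : Function.Injective w := by
    have hlt : ∀ i j, i < j → w i ≠ w j := by
      intro i j hij heq
      -- choose a third index
      obtain ⟨l, hli, hlj⟩ : ∃ l : Fin n, l ≠ i ∧ l ≠ j := by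
        by_contra hcon
        push Not at hcon
        have hsub : (Finset.univ : Finset (Fin n)) ⊆ {i, j} := by
          intro l _
          by_cases h : l = i
          · simp [h]
          · simp [hcon l h]
        have h1 := Finset.card_le_card hsub
        have h2 : ({i, j} : Finset (Fin n)).card ≤ 2 := Finset.card_le_two
        rw [Finset.card_univ, Fintype.card_fin] at h1
        omega
      rcases lt_or_gt_of_ne hli with h1 | h1
      · -- l < i < j
        have h2 : l < j := h1.trans hij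
        have := hr l i l j h1 h2 (by rw [heq])
        exact absurd this.2 (ne_of_lt hij)
      · rcases lt_or_gt_of_ne hlj with h2 | h2
        · -- i < l < j
          have := hr i l l j h1 h2 (by rw [heq, dist_comm])
          exact absurd this.1 (ne_of_lt h1)
        · -- i < j < l
          have := hr i l j l h1 h2 (by rw [heq])
          exact absurd this.1 (ne_of_lt hij)
    intro i j hij
    rcases lt_trichotomy i j with h | h | h
    · exact absurd hij (hlt i j h)
    · exact h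
    · exact absurd hij.symm (hlt j i h)
  refine ⟨Finset.univ.image w, ?_, ?_, ?_⟩
  · intro x hx
    obtain ⟨i, -, rfl⟩ := Finset.mem_image.1 hx
    exact hw i
  · rw [Finset.card_image_of_injective _ hinj, Finset.card_univ, Fintype.card_fin]
  · intro a ha b hb c hc e he hab hce hd
    obtain ⟨i, -, rfl⟩ := Finset.mem_image.1 ha
    obtain ⟨j, -, rfl⟩ := Finset.mem_image.1 hb
    obtain ⟨i', -, rfl⟩ := Finset.mem_image.1 hc
    obtain ⟨j', -, rfl⟩ := Finset.mem_image.1 he
    have hij : i ≠ j := fun h => hab (by rw [h])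
    have hij' : i' ≠ j' := fun h => hce (by rw [h])
    rcases lt_or_gt_of_ne hij with h1 | h1 <;> rcases lt_or_gt_of_ne hij' with h2 | h2
    · obtain ⟨h3, h4⟩ := hr i j i' j' h1 h2 hd
      left; rw [h3, h4]; exact ⟨rfl, rfl⟩
    · obtain ⟨h3, h4⟩ := hr i j j' i' h1 h2 (by rw [hd, dist_comm])
      right; rw [h3, h4]; exact ⟨rfl, rfl⟩
    · obtain ⟨h3, h4⟩ := hr j i i' j' h1 h2 (by rw [dist_comm, hd])
      right; rw [h3, h4]; exact ⟨rfl, rfl⟩
    · obtain ⟨h3, h4⟩ := hr j i j' i' h1 h2 (by rw [dist_comm, hd, dist_comm])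
      left; rw [h3, h4]; exact ⟨rfl, rfl⟩


open Pool.Agent.Lib.MP_ba5def_co in
/-- the recursion solved -/
theorem bd_power (n : ℕ) : ∃ A : ℝ, ∀ (E : Type) [NormedAddCommGroup E]
    [InnerProductSpace ℝ E] [FiniteDimensional ℝ E] (k : ℕ),
    Bd E n k (A * (k : ℝ) ^ (13 / 16 : ℝ)) := by
  obtain ⟨c, L0, hrec⟩ := recursion n
  set W : ℝ := c * ((L0 : ℝ) + 3) ^ 13 with hW
  have hW0 : 0 ≤ W := by positivity
  refine ⟨4 * W, ?_⟩
  intro E _ _ _ k
  induction k using Nat.strong_induction_on with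
  | _ k ih =>
    rcases Nat.eq_zero_or_pos k with hk | hk
    · subst hk
      have h0 := bd_zero E n
      rw [Nat.cast_zero, Real.zero_rpow (by norm_num), mul_zero]
      exact h0
    · have hk1 : (1 : ℝ) ≤ k := by exact_mod_cast hk
      have hk0 : (0 : ℝ) ≤ k := by linarith
      -- choice of L
      set y : ℝ := ((k : ℝ) + 3) ^ (1 / 16 : ℝ) with hy
      have hy0 : 0 ≤ y := by positivity
      set L : ℕ := L0 + ⌈y⌉₊ with hL
      have hyL : y ≤ (L : ℝ) := by
        rw [hL, Nat.cast_add]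
        have := Nat.le_ceil y
        have h0 : (0 : ℝ) ≤ L0 := Nat.cast_nonneg _
        linarith
      have hkL : k + 3 ≤ L ^ 16 := by
        have h1 : ((k : ℝ) + 3) = y ^ 16 := by
          rw [hy, ← Real.rpow_natCast, ← Real.rpow_mul (by positivity)]
          norm_num
        have h2 : ((k : ℝ) + 3) ≤ (L : ℝ) ^ 16 := by
          rw [h1]
          exact pow_le_pow_left₀ hy0 hyL 16
        exact_mod_cast h2
      have hy2 : y ≤ 2 * (k : ℝ) ^ (1 / 16 : ℝ) := by
        have h1 : ((k : ℝ) + 3) ≤ 2 ^ (16 : ℝ) * (k : ℝ) := by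
          norm_num
          linarith
        calc y ≤ (2 ^ (16 : ℝ) * (k : ℝ)) ^ (1 / 16 : ℝ) :=
              Real.rpow_le_rpow (by positivity) h1 (by norm_num)
          _ = 2 * (k : ℝ) ^ (1 / 16 : ℝ) := by
              rw [Real.mul_rpow (by positivity) hk0, ← Real.rpow_mul (by norm_num)]
              norm_num
      have hk16 : (1 : ℝ) ≤ (k : ℝ) ^ (1 / 16 : ℝ) := Real.one_le_rpow hk1 (by norm_num)
      have hLk : (L : ℝ) ≤ ((L0 : ℝ) + 3) * (k : ℝ) ^ (1 / 16 : ℝ) := by
        have h1 : (⌈y⌉₊ : ℝ) ≤ y + 1 := (Nat.ceil_lt_add_one hy0).le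
        rw [hL, Nat.cast_add]
        have h0 : (0 : ℝ) ≤ L0 := Nat.cast_nonneg _
        nlinarith
      have hL13 : (c : ℝ) * (L : ℝ) ^ 13 ≤ W * (k : ℝ) ^ (13 / 16 : ℝ) := by
        have h1 : (L : ℝ) ^ 13 ≤ (((L0 : ℝ) + 3) * (k : ℝ) ^ (1 / 16 : ℝ)) ^ 13 :=
          pow_le_pow_left₀ (Nat.cast_nonneg _) hLk 13
        have h2 : ((k : ℝ) ^ (1 / 16 : ℝ)) ^ 13 = (k : ℝ) ^ (13 / 16 : ℝ) := by
          rw [← Real.rpow_natCast, ← Real.rpow_mul hk0]
          norm_num
        rw [mul_pow, h2] at h1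
        calc (c : ℝ) * (L : ℝ) ^ 13
            ≤ c * (((L0 : ℝ) + 3) ^ 13 * (k : ℝ) ^ (13 / 16 : ℝ)) :=
              mul_le_mul_of_nonneg_left h1 (Nat.cast_nonneg _)
          _ = W * (k : ℝ) ^ (13 / 16 : ℝ) := by rw [hW]; ring
      have hLL0 : L0 ≤ L := by omega
      have hhalf := ih (k / 2) (Nat.div_lt_self hk (by norm_num))
      have ht0 : 0 ≤ 4 * W * (((k / 2 : ℕ) : ℝ)) ^ (13 / 16 : ℝ) := by positivity
      have h3 := hrec L hLL0 E k _ ht0 hkL hhalf
      have h4 : 4 * W * (((k / 2 : ℕ) : ℝ)) ^ (13 / 16 : ℝ) + c * (L : ℝ) ^ 13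
          ≤ 4 * W * (k : ℝ) ^ (13 / 16 : ℝ) := by
        have h5 : (((k / 2 : ℕ) : ℝ)) ^ (13 / 16 : ℝ) ≤ 3 / 4 * (k : ℝ) ^ (13 / 16 : ℝ) := by
          have h6 : (((k / 2 : ℕ) : ℝ)) ≤ (k : ℝ) * (1 / 2) := by
            have := Nat.cast_div_le (m := k) (n := 2) (α := ℝ)
            push_cast at this
            linarith
          calc (((k / 2 : ℕ) : ℝ)) ^ (13 / 16 : ℝ) ≤ ((k : ℝ) * (1 / 2)) ^ (13 / 16 : ℝ) :=
                Real.rpow_le_rpow (Nat.cast_nonneg _) h6 (by norm_num)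
            _ = (1 / 2 : ℝ) ^ (13 / 16 : ℝ) * (k : ℝ) ^ (13 / 16 : ℝ) := by
                rw [Real.mul_rpow hk0 (by norm_num), mul_comm]
            _ ≤ 3 / 4 * (k : ℝ) ^ (13 / 16 : ℝ) := by
                apply mul_le_mul_of_nonneg_right _ (by positivity)
                have h7 : (1 / 2 : ℝ) ^ (13 / 16 : ℝ) ≤ (1 / 2 : ℝ) ^ (1 / 2 : ℝ) :=
                  Real.rpow_le_rpow_of_exponent_ge (by norm_num) (by norm_num) (by norm_num)
                refine h7.trans ?_
                rw [← Real.sqrt_eq_rpow]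
                apply Real.sqrt_le_iff.mpr
                norm_num
        have h8 : 0 ≤ (k : ℝ) ^ (13 / 16 : ℝ) := by positivity
        nlinarith
      intro V hV hno
      exact (h3 V hV hno).trans (Real.exp_le_exp.mpr h4)

open Pool.Agent.Lib.MP_ba5def_co in
theorem result (n : ℕ) (hn : 3 ≤ n) :
    ∃ C : ℝ, ∀ (d : ℕ) (S : Finset (EuclideanSpace ℝ (Fin d))),
      Real.exp (C * (d : ℝ) ^ (13 / 16 : ℝ)) < (S.card : ℝ) →
      ∃ T : Finset (EuclideanSpace ℝ (Fin d)), T ⊆ S ∧ T.card = n ∧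
        ∀ a ∈ T, ∀ b ∈ T, ∀ c ∈ T, ∀ e ∈ T, a ≠ b → c ≠ e →
          dist a b = dist c e → (a = c ∧ b = e) ∨ (a = e ∧ b = c) := by
  obtain ⟨A, hA⟩ := bd_power n
  refine ⟨A, fun d S hS => ?_⟩
  by_contra hno
  have hnr : NoRainbow n S := by
    rintro ⟨w, hw, hr⟩
    exact hno (set_of_family n hn S w hw hr)
  have h1 := hA (EuclideanSpace ℝ (Fin d)) d S
    ((Submodule.finrank_le _).trans (by simp)) hnr
  linarith

end Pool.Agent.Results.MP_ba5def_co.PowerSaving
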